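import Mathlib

/-!
# Abelian varieties over finite fields: definitions

By Honda and Tate the isogeny classes of abelian varieties over the field with `p ^ a` elements
correspond to the polynomials `P` with `IsFrobPoly p a P` (`P` is the characteristic polynomial of
the Frobenius on `H¹`); Frobenius acts semisimply on `H¹`, and the cohomology algebra is the
exterior algebra of `H¹`.
-/

open Polynomial

namespace Pool.Agent.W518.TC

/-- `P` is the characteristic polynomial of the Frobenius endomorphism of an abelian variety over
the field with `p ^ a` elements (theorem of Honda and Tate): `P` is monic with integral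
coefficients, all complex roots have absolute value `p ^ (a / 2)`, and for every irreducible factor
`g` of `P` over `ℚ`, the multiplicity `m` of `g` in `P` is a multiple of the denominators of the
local invariants `1 / 2` at real places (if `g` has a real root) and `v (h 0) / a`, where `h` runs
through the irreducible factors of `g` over `ℚ_p`, which correspond to the places of the field
`ℚ[X] / (g)` above `p`. -/
structure IsFrobPoly (p : ℕ) [Fact p.Prime] (a : ℕ) (P : ℤ[X]) : Prop where
  monic : P.Monic
  weil : ∀ z : ℂ, (P.map (Int.castRingHom ℂ)).IsRoot z → ‖z‖ ^ 2 = (p : ℝ) ^ a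
  real : ∀ g : ℚ[X], g.Monic → Irreducible g → (∃ r : ℝ, (g.map (algebraMap ℚ ℝ)).IsRoot r) →
    2 ∣ multiplicity g (P.map (Int.castRingHom ℚ))
  places : ∀ g : ℚ[X], g.Monic → Irreducible g → ∀ h : ℚ_[p][X], h.Monic → Irreducible h →
    h ∣ g.map (algebraMap ℚ ℚ_[p]) →
    (a : ℤ) ∣ (multiplicity g (P.map (Int.castRingHom ℚ)) : ℤ) * (h.coeff 0).valuation

variable {Ω V : Type*} [Field Ω] [AddCommGroup V] [Module Ω V]

/-- `V = H¹(Ā)` (coefficients extended to the field `Ω`) for an abelian variety `A` over the field
with `p ^ a` elements whose Frobenius has characteristic polynomial `P`, and `F` is the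
Frobenius. -/
structure IsH1 (P : ℤ[X]) (V : Type*) [AddCommGroup V] [Module Ω V] (F : Module.End Ω V) :
    Prop where
  fin : FiniteDimensional Ω V
  semisimple : F.IsSemisimple
  charpoly : F.charpoly = P.map (Int.castRingHom Ω)

/-- `x` is a Tate class of codimension `m` (possibly only over a finite extension of the field with
`q` elements): `x` lies in `H^{2m}(Ā) = ⋀^{2m} V`, and the `s`-th power of Frobenius acts on `x` as
multiplication by `(q ^ m) ^ s`, for some `s > 0`. -/
def IsTateClass (F : Module.End Ω V) (q m : ℕ) (x : ExteriorAlgebra Ω V) : Prop :=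
  x ∈ ⋀[Ω]^(2 * m) V ∧ ∃ s : ℕ, 0 < s ∧ ExteriorAlgebra.map (F ^ s) x = ((q : Ω) ^ m) ^ s • x

/-- Classes of degree two on which `F` acts as multiplication by `Q`: if `F` is the Frobenius of an
abelian variety over the field with `Q` elements, these are the Tate classes of codimension one,
that is, the linear combinations of divisor classes (theorem of Tate). -/
def degTwo (F : Module.End Ω V) (Q : Ω) : Set (ExteriorAlgebra Ω V) :=
  {c | c ∈ ⋀[Ω]^2 V ∧ ExteriorAlgebra.map F c = Q • c}

/-- Products `u ∧ z`, where `u ∈ ⋀³ V` satisfies `F u = r ^ 3 u` and `z ∈ V` satisfies `F z = r z`: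
if `F` is the Frobenius of an abelian variety over the field with `r ^ 2` elements, these are
special Tate classes of codimension two, products of a class in `H³` on which Frobenius acts as
the `3/2`-th power of the number of elements, and of a class coming from `H¹` of a supersingular
elliptic curve. -/
def special (F : Module.End Ω V) (r : Ω) : Set (ExteriorAlgebra Ω V) :=
  {c | ∃ u ∈ ⋀[Ω]^3 V, ∃ z : V, ExteriorAlgebra.map F u = r ^ 3 • u ∧ F z = r • z ∧
    c = u * ExteriorAlgebra.ι Ω z}

/-- The subalgebra of the cohomology algebra generated by the Tate classes of degree two and the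
special Tate classes, for the Frobenius `F` of an abelian variety over the field with `r ^ 2`
elements. -/
def generated (F : Module.End Ω V) (r : Ω) : Subalgebra Ω (ExteriorAlgebra Ω V) :=
  Algebra.adjoin Ω (degTwo F (r ^ 2) ∪ special F r)

/-- The exterior product (Künneth product) `H*(A) × H*(B) → H*(A × B)`, where `V = H¹(A)` and
`W = H¹(B)`. -/
noncomputable def cross {W : Type*} [AddCommGroup W] [Module Ω W] (x : ExteriorAlgebra Ω V)
    (y : ExteriorAlgebra Ω W) : ExteriorAlgebra Ω (V × W) :=
  ExteriorAlgebra.map (LinearMap.inl Ω V W) x * ExteriorAlgebra.map (LinearMap.inr Ω V W) y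

/-- `x × ω` lies in the algebra generated by the Tate classes of degree two and the special Tate
classes of `A × B`, for every Tate class `x` on `A` and every class `ω` of top degree on `B`.  Here
`(V, F) = H¹(A)` with the Frobenius of the field with `q` elements, `(W, Φ) = H¹(B)` with the
Frobenius of its extension of degree `2 * e`, and `q ^ (2 * e) = r ^ 2`. -/
def AllGenerated {W : Type*} [AddCommGroup W] [Module Ω W] (q e r : ℕ) (F : Module.End Ω V)
    (Φ : Module.End Ω W) : Prop :=
  ∀ (m : ℕ) (x : ExteriorAlgebra Ω V), IsTateClass F q m x →
    ∀ ω ∈ ⋀[Ω]^(Module.finrank Ω W) W, cross x ω ∈ generated ((F ^ (2 * e)).prodMap Φ) (r : Ω)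

end Pool.Agent.W518.TC
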